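import Pool.Agent.Helper37.DJ.Vel

/-! D1 = 1, K = 2, first half: after Theorem A the velocities of the flat coordinates are real polynomials of the base
point `(t, f)` (second part). -/

set_option autoImplicit false

namespace Pool.Agent.Helper37.DJ

open Finset Filter Topology Pool.Agent.Helper69.RK Pool.Agent.Helper31.EC Pool.Agent.Helper31.EC.Sp
open Pool.Agent.Helper31.EC.QS Pool.Agent.Helper5.DO Pool.Agent.Helper57.TA

noncomputable section

section alg

variable {A β κ : Type*} [CommRing A]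

theorem mapDomain_inl (u : β →₀ ℕ) : bp (κ := κ) (u.mapDomain Sum.inl) = u ∧ vp (κ := κ) (u.mapDomain Sum.inl) = 0 := by
  constructor
  · ext b
    rw [bp_apply, Finsupp.mapDomain_apply Sum.inl_injective]
  · ext k
    rw [vp_apply, Finsupp.mapDomain_notin_range, Finsupp.zero_apply]
    rintro ⟨y, hy⟩
    exact Sum.inl_ne_inr hy

open Classical in
theorem coeff_rename_inl (P : MvPolynomial β A) (M : β ⊕ κ →₀ ℕ) :
    (MvPolynomial.rename Sum.inl P).coeff M = if vp M = 0 then P.coeff (bp M) else 0 := by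
  split_ifs with h
  · have h1 : M = (bp M).mapDomain Sum.inl := bv_inj (mapDomain_inl _).1.symm (by rw [(mapDomain_inl _).2, h])
    conv_lhs => rw [h1]
    exact MvPolynomial.coeff_rename_mapDomain _ Sum.inl_injective _ _
  · apply MvPolynomial.coeff_rename_eq_zero
    intro u hu
    exact absurd (by rw [← hu, (mapDomain_inl _).2]) h

theorem pderiv_rename_inl (P : MvPolynomial β A) (b : β) :
    MvPolynomial.pderiv (Sum.inl b : β ⊕ κ) (MvPolynomial.rename Sum.inl P) =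
      MvPolynomial.rename Sum.inl (MvPolynomial.pderiv b P) := by
  classical
  induction P using MvPolynomial.induction_on with
  | C a => rw [MvPolynomial.rename_C, MvPolynomial.pderiv_C, MvPolynomial.pderiv_C, map_zero]
  | add p q hp hq => rw [map_add, map_add, map_add, map_add, hp, hq]
  | mul_X p i hp =>
    rw [map_mul, MvPolynomial.rename_X, MvPolynomial.pderiv_mul, MvPolynomial.pderiv_mul, hp, map_add, map_mul, map_mul,
      MvPolynomial.rename_X, MvPolynomial.pderiv_X, MvPolynomial.pderiv_X]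
    by_cases h : i = b
    · subst h
      rw [Pi.single_eq_same, Pi.single_eq_same, map_one]
    · rw [Pi.single_eq_of_ne h, Pi.single_eq_of_ne (fun h2 => h (Sum.inl_injective h2)), map_zero]

theorem pderiv_rename_inr (P : MvPolynomial β A) (k : κ) :
    MvPolynomial.pderiv (Sum.inr k : β ⊕ κ) (MvPolynomial.rename Sum.inl P) = 0 := by
  classical
  apply MvPolynomial.pderiv_eq_zero_of_notMem_vars
  intro h
  have h1 := MvPolynomial.vars_rename _ _ h
  rw [Finset.mem_image] at h1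
  obtain ⟨y, _, hy⟩ := h1
  exact Sum.inl_ne_inr hy

end alg

variable {S : Sp}

namespace Vel

variable {ι κ : Type} [Fintype κ] {r : ℝ} (T : Vel S ι κ r)

/-- the part of `H` without `f` -/
def H0 (H : MvPolynomial (Fin 2 ⊕ κ) (QS S)) : MvPolynomial (Fin 2 ⊕ κ) (QS S) := flt (fun m => m (Sum.inl 1) = 0) H

/-- the part of `H` without vertical variables, with `f` -/
def H1 (H : MvPolynomial (Fin 2 ⊕ κ) (QS S)) : MvPolynomial (Fin 2) (QS S) := flt (fun m => m 1 ≠ 0) (cf H 0)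

theorem H0_PK {H : MvPolynomial (Fin 2 ⊕ κ) (QS S)} (hH : H ∈ PK ⊥) : H0 H ∈ PK ⊥ := flt_PK hH _

theorem H1_PK {H : MvPolynomial (Fin 2 ⊕ κ) (QS S)} (hH : H ∈ PK ⊥) : H1 H ∈ PK ⊥ := flt_PK (cf_PK hH _) _

theorem H0_coeff (H : MvPolynomial (Fin 2 ⊕ κ) (QS S)) (m : Fin 2 ⊕ κ →₀ ℕ) (h : m (Sum.inl 1) ≠ 0) :
    (H0 H).coeff m = 0 := by
  classical
  unfold H0
  rw [coeff_flt, if_neg h]

theorem H0_pderiv (H : MvPolynomial (Fin 2 ⊕ κ) (QS S)) : MvPolynomial.pderiv (Sum.inl 1) (H0 H) = 0 := by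
  classical
  ext m
  rw [MvPolynomial.coeff_pderiv, H0_coeff, zero_mul, MvPolynomial.coeff_zero]
  simp

theorem rest_small (hr : r ≤ 1) {H : MvPolynomial (Fin 2 ⊕ κ) (QS S)} (hH : H ∈ PK ⊥)
    (flat : ∀ i, ∃ Q : Polynomial (QS S), Q ∈ PU (T.ln i) ∧ T.dz H i - Q.eval (T.q 0) ∈ Id S r)
    (m : Fin 2 ⊕ κ →₀ ℕ) : (H - H0 H - MvPolynomial.rename Sum.inl (H1 H)).coeff m ∈ Id S r := by
  classical
  rw [MvPolynomial.coeff_sub, MvPolynomial.coeff_sub, coeff_rename_inl]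
  unfold H0 H1
  rw [coeff_flt]
  by_cases h1 : m (Sum.inl 1) = 0
  · rw [if_pos h1, sub_self, zero_sub]
    split_ifs with h2
    · rw [coeff_flt, if_neg, neg_zero]
      · exact (Id S r).zero_mem
      · rw [bp_apply]
        simpa using h1
    · rw [neg_zero]
      exact (Id S r).zero_mem
  · rw [if_neg h1, sub_zero]
    by_cases h2 : vp m = 0
    · rw [if_pos h2, coeff_flt, if_pos]
      · have h3 : (cf H 0).coeff (bp m) = H.coeff m := by
          rw [← h2]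
          exact coeff_cf H m
        rw [h3, sub_self]
        exact (Id S r).zero_mem
      · rw [bp_apply]
        exact h1
    · rw [if_neg h2, sub_zero]
      exact T.mixed hr hH flat m h1 h2

/-- velocity of the new flat coordinate along the lines -/
theorem dz_H0 (hr : r ≤ 1) {H : MvPolynomial (Fin 2 ⊕ κ) (QS S)} (hH : H ∈ PK ⊥)
    (flat : ∀ i, ∃ Q : Polynomial (QS S), Q ∈ PU (T.ln i) ∧ T.dz H i - Q.eval (T.q 0) ∈ Id S r) (i : ι) :
    ∃ Q : Polynomial (QS S), Q ∈ PU (T.ln i) ∧ T.dz (H0 H) i - Q.eval (T.q 0) ∈ Id S r := by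
  classical
  obtain ⟨Q, hQ, hQe⟩ := flat i
  have hk : ∀ j, MvPolynomial.pderiv j (H1 H) ∈ PK (T.ln i) := fun j => PK_mono bot_le (pd_PK (H1_PK hH) j)
  refine ⟨Q + (MvPolynomial.aeval (T.lp i) (MvPolynomial.pderiv 0 (H1 H)) + Polynomial.C (T.a i) *
    MvPolynomial.aeval (T.lp i) (MvPolynomial.pderiv 1 (H1 H))), ?_, ?_⟩
  · apply (PU _).add_mem hQ
    apply (PU _).add_mem (PU_aeval (hk 0) (T.lp_PU i))
    exact (PU _).mul_mem (PU_C le_sup_left) (PU_aeval (hk 1) (T.lp_PU i))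
  · rw [Polynomial.eval_add, Polynomial.eval_add, Polynomial.eval_mul, Polynomial.eval_C, eval_aeval, eval_aeval,
      T.lp_eval]
    have h1 : T.dz (H0 H) i - T.dz H i - (MvPolynomial.eval T.q (MvPolynomial.pderiv 0 (H1 H)) +
        T.a i * MvPolynomial.eval T.q (MvPolynomial.pderiv 1 (H1 H))) =
        ∑ j, MvPolynomial.eval T.x (MvPolynomial.pderiv j (H - H0 H - MvPolynomial.rename Sum.inl (H1 H))) *
          (T.c i).v j := by
      have h2 : ∑ j, MvPolynomial.eval T.x (MvPolynomial.pderiv j (MvPolynomial.rename Sum.inl (H1 H))) *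
          (T.c i).v j = MvPolynomial.eval T.q (MvPolynomial.pderiv 0 (H1 H)) +
            T.a i * MvPolynomial.eval T.q (MvPolynomial.pderiv 1 (H1 H)) := by
        rw [Fintype.sum_sum_type, Fin.sum_univ_two, T.c0, T.c1]
        have h3 : ∑ k, MvPolynomial.eval T.x (MvPolynomial.pderiv (Sum.inr k)
            (MvPolynomial.rename Sum.inl (H1 H))) * (T.c i).v (Sum.inr k) = 0 := by
          apply Finset.sum_eq_zero
          intro k _
          rw [pderiv_rename_inr, map_zero, zero_mul]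
        rw [h3, pderiv_rename_inl, pderiv_rename_inl, MvPolynomial.eval_rename, MvPolynomial.eval_rename]
        have h4 : T.x ∘ Sum.inl = T.q := rfl
        rw [h4]
        ring
      rw [← h2]
      unfold dz
      simp only [map_sub, sub_mul, Finset.sum_sub_distrib]
      ring
    have h5 : ∑ j, MvPolynomial.eval T.x (MvPolynomial.pderiv j (H - H0 H - MvPolynomial.rename Sum.inl (H1 H))) *
          (T.c i).v j ∈ Id S r := by
      apply (Id S r).sum_mem
      intro j _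
      apply (Id S r).mul_mem_right
      apply eval_mem_ideal
      exact pderiv_coeff_mem _ (T.rest_small hr hH flat) j
    rw [← h1] at h5
    have h6 := (Id S r).add_mem h5 hQe
    have h7 : T.dz (H0 H) i - T.dz H i - (MvPolynomial.eval T.q (MvPolynomial.pderiv 0 (H1 H)) +
        T.a i * MvPolynomial.eval T.q (MvPolynomial.pderiv 1 (H1 H))) + (T.dz H i - Polynomial.eval (T.q 0) Q) =
        T.dz (H0 H) i - (Polynomial.eval (T.q 0) Q + (MvPolynomial.eval T.q (MvPolynomial.pderiv 0 (H1 H)) +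
          T.a i * MvPolynomial.eval T.q (MvPolynomial.pderiv 1 (H1 H)))) := by ring
    rwa [h7] at h6

/-- STEP 2: the velocity at rest is known to the base point -/
theorem vH_q (hr0 : 0 ≤ r) (hr : r ≤ 1) {H : MvPolynomial (Fin 2 ⊕ κ) (QS S)} (hH : H ∈ PK ⊥)
    (flat : ∀ i, ∃ Q : Polynomial (QS S), Q ∈ PU (T.ln i) ∧ T.vH H - Q.eval (T.q 0) ∈ Id S r) :
    dg (T.vH H) r ≤ vd T.q 1 := by
  set F : Fin 2 ⊕ Unit → QS S := Sum.elim T.q (fun _ => T.vH H) with hF
  have hFO : vd F 1 ≤ T.O := by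
    rw [vd_le]
    rintro (j | j)
    · exact (dg_le_vd T.q 1 j).trans T.qO
    · exact T.vH_O hH
  obtain ⟨W, p, p', i, i', -, -, hI⟩ := T.sp.fam F hFO
  obtain ⟨Q, hQ, hQe⟩ := flat i
  have h1 : dg (T.vH H) r ≤ dg (T.a i) 1 ⊔ vd T.q 1 := by
    rw [dg_eq_of_sub_mem hQe le_rfl hr, sup_comm]
    exact (dg_mono _ hr).trans (PU_eval hQ (T.ln_le i) ((dg_le_vd T.q 1 0).trans le_sup_left))
  have h2 : I (dg (T.a i) 1) (vd T.q 1 ⊔ dg (T.vH H) r) ⊥ = 0 := by
    rw [← p.I_map, p.map_bot]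
    apply I_zero_mono hI
    · rw [sup_bot_eq, ← p.qs_dg]
      exact le_sup_left
    · rw [sup_bot_eq]
      apply p.map_mono
      apply sup_le
      · rw [vd_le]
        intro k
        exact dg_le_vd F 1 (Sum.inl k)
      · exact (dg_mono _ hr).trans (dg_le_vd F 1 (Sum.inr ()))
  have h3 := (I_decomp h2).2
  rw [sup_bot_eq, I_comm] at h3
  exact le_of_I_zero h1 h3

/-- STEP 3: the velocity is a real polynomial of the base point -/
theorem vH_poly (hr0 : 0 ≤ r) (hr : r ≤ 1) {H : MvPolynomial (Fin 2 ⊕ κ) (QS S)} (hH : H ∈ PK ⊥)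
    (flat : ∀ i, ∃ Q : Polynomial (QS S), Q ∈ PU (T.ln i) ∧ T.vH H - Q.eval (T.q 0) ∈ Id S r) :
    ∃ Ψ : MvPolynomial (Fin 2) (QS S), Ψ ∈ PK ⊥ ∧ T.vH H - MvPolynomial.eval T.q Ψ ∈ Id S r := by
  obtain ⟨G, hG1, hG2⟩ := exists_round (T.vH H) hr0 hr
  have hGq : dg G 1 ≤ vd T.q 1 := hG1.trans (T.vH_q hr0 hr hH flat)
  have flatG : ∀ i, ∃ Q : Polynomial (QS S), Q ∈ PU (T.ln i) ∧ G - Q.eval (T.q 0) ∈ Id S r := by
    intro i
    obtain ⟨Q, hQ, hQe⟩ := flat i
    refine ⟨Q, hQ, ?_⟩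
    have h1 := (Id S r).sub_mem hQe hG2
    have h2 : T.vH H - Q.eval (T.q 0) - (T.vH H - G) = G - Q.eval (T.q 0) := by ring
    rwa [h2] at h1
  set F : Fin 2 ⊕ Unit → QS S := Sum.elim T.q (fun _ => G) with hF
  have hFO : vd F 1 ≤ T.O := by
    rw [vd_le]
    rintro (j | j)
    · exact (dg_le_vd T.q 1 j).trans T.qO
    · exact hGq.trans T.qO
  obtain ⟨W, p, p', i, i', hcom, hu, hI⟩ := T.sp.fam F hFO
  have eq : ∀ j, p'.qs (T.q j) = p.qs (T.q j) := fun j => (hcom (Sum.inl j)).symm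
  have eG : p'.qs G = p.qs G := (hcom (Sum.inr ())).symm
  set x : Fin 2 → Fin 2 → QS W := ![![1, p.qs (T.a i)], ![1, p'.qs (T.a i')]] with hx
  set f : Fin 2 → Fin 2 → QS W := ![![0, p.qs (T.ft i)], ![0, p'.qs (T.ft i')]] with hf
  have hone : ∀ A : W.L, dg (1 : QS W) 1 ≤ A := fun A => (Kn W 1 le_rfl A).one_mem
  obtain ⟨Z, hZq, hZx, hZf, hZt⟩ : ∃ Z : Pool.Agent.Helper21.DO.Fan W 2, Z.q = (fun j => p.qs (T.q j)) ∧ Z.x = x ∧
      Z.f = f ∧ Z.ta = 0 := by
    refine ⟨⟨fun j => p.qs (T.q j), x, f, 0, ?_, ?_, ?_, ?_⟩, rfl, rfl, rfl, rfl⟩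
    · intro l a
      fin_cases l
      · fin_cases a
        · simp [hx, hf]
        · simp only [hx, hf, ft]
          simp
      · fin_cases a
        · simp [hx, hf]
        · simp only [hx, hf, ft]
          simp [eq]
    · intro l
      fin_cases l <;> rfl
    · have h1 : (Matrix.of x).det = p'.qs (T.a i') - p.qs (T.a i) := by
        rw [Matrix.det_fin_two]
        simp [hx]
      rw [h1, ← neg_sub]
      exact hu.neg
    · have h1 : Rl (fun j => p.qs (T.q j)) (⊥ : W.L) := by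
        have := T.qr.pull p
        rwa [p.map_bot] at this
      have h2 : Rl (fun j => p.qs (T.q j)) (⊥ ⊔ (dg (p.qs (T.a i)) 1 ⊔ dg (p'.qs (T.a i')) 1)) := by
        apply Rl_ind h1
        apply I_zero_mono hI le_sup_left
        rw [sup_bot_eq, sup_bot_eq, vd_qs]
        apply p.map_mono
        rw [vd_le]
        intro k
        exact dg_le_vd F 1 (Sum.inl k)
      apply h2.anti
      rw [bot_sup_eq, vd_le]
      rintro ⟨l, a⟩
      fin_cases l
      · fin_cases a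
        · exact hone _
        · exact le_sup_left
      · fin_cases a
        · exact hone _
        · exact le_sup_right
  have hw : ∀ l, WPol (Z.iL l) Z.t (p.qs G) r := by
    have key : ∀ (p₁ : Pj W S) (i₁ : ι) (l : Fin 2), p₁.qs G = p.qs G → p₁.qs (T.q 0) = p.qs (T.q 0) →
        p₁.map (T.ln i₁) ≤ Z.iL l → WPol (Z.iL l) Z.t (p.qs G) r := by
      intro p₁ i₁ l h1 h2 h3
      obtain ⟨Q, hQ, hQe⟩ := flatG i₁
      refine ⟨(Q.map p₁.qs).natDegree, fun a => (Q.map p₁.qs).coeff (a : ℕ), ?_, ?_⟩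
      · intro j
        exact (PU_map p₁ hQ _).trans h3
      · rw [Pool.Agent.Helper21.DO.pe_coeff]
        have h4 : Z.t = p₁.qs (T.q 0) := by
          rw [h2]
          unfold Pool.Agent.Helper21.DO.Fan.t
          rw [hZt, hZq]
        rw [h4, Polynomial.eval_map_apply, ← h1, ← map_sub]
        exact (p₁.qs_mem_Id hr).mpr hQe
    intro l
    have hxe : ∀ l, Z.x l = x l := fun l => by rw [hZx]
    have hfe : ∀ l, Z.f l = f l := fun l => by rw [hZf]
    fin_cases l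
    · apply key p i 0 rfl rfl
      unfold ln Pool.Agent.Helper21.DO.Fan.iL
      rw [p.map_sup, ← p.qs_dg, ← p.qs_dg]
      apply sup_le_sup
      · refine le_trans ?_ (dg_le_vd (Z.x 0) 1 1)
        rw [hxe]
        exact le_rfl
      · refine le_trans ?_ (dg_le_vd (Z.f 0) 1 1)
        rw [hfe]
        exact le_rfl
    · apply key p' i' 1 eG (eq 0)
      unfold ln Pool.Agent.Helper21.DO.Fan.iL
      rw [p'.map_sup, ← p'.qs_dg, ← p'.qs_dg]
      apply sup_le_sup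
      · refine le_trans ?_ (dg_le_vd (Z.x 1) 1 1)
        rw [hxe]
        exact le_rfl
      · refine le_trans ?_ (dg_le_vd (Z.f 1) 1 1)
        rw [hfe]
        exact le_rfl
  have hGZ : dg (p.qs G) 1 ≤ vd Z.q 1 := by
    rw [hZq, vd_qs, p.qs_dg]
    exact p.map_mono hGq
  obtain ⟨W2, p2, Θ, hΘ, hΘe⟩ := Z.poly (p.qs G) hGZ hr0 hr hw
  rw [hZq] at hΘe
  have hΘe2 : (p2.comp p).qs G - MvPolynomial.eval (fun j => (p2.comp p).qs (T.q j)) Θ ∈ Id W2 r := by
    simp only [Pj.comp_qs]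
    exact hΘe
  obtain ⟨Ψ, hΨ, -, hΨe⟩ := descend_coeff (p2.comp p) G (x := T.q) (A := ⊥) zero_lt_one le_rfl
    (Rl_iff_Rt.mp T.qr) hr0 hr le_rfl (PKr_of_PK le_rfl (PK_mono bot_le hΘ)) hΘe2
  refine ⟨Ψ, hΨ, ?_⟩
  have h1 := (Id S r).add_mem hG2 hΨe
  have h2 : T.vH H - G + (G - MvPolynomial.eval T.q Ψ) = T.vH H - MvPolynomial.eval T.q Ψ := by ring
  rwa [h2] at h1

/-- **E3a.** -/
theorem main (hr0 : 0 ≤ r) (hr : r ≤ 1) {H : MvPolynomial (Fin 2 ⊕ κ) (QS S)} (hH : H ∈ PK ⊥)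
    (flat : ∀ i, ∃ Q : Polynomial (QS S), Q ∈ PU (T.ln i) ∧ T.dz H i - Q.eval (T.q 0) ∈ Id S r) :
    ∃ (G : MvPolynomial (Fin 2 ⊕ κ) (QS S)) (G1 Ψ : MvPolynomial (Fin 2) (QS S)), G ∈ PK ⊥ ∧ G1 ∈ PK ⊥ ∧ Ψ ∈ PK ⊥ ∧
      (∀ m, m (Sum.inl 1) ≠ 0 → G.coeff m = 0) ∧
      (∀ m, (H - G - MvPolynomial.rename Sum.inl G1).coeff m ∈ Id S r) ∧
      ∀ i, T.dz G i - MvPolynomial.eval T.q Ψ ∈ Id S r := by
  have h0 : ∀ i, T.dz (H0 H) i - T.vH (H0 H) ∈ Id S r := by
    intro i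
    have h1 := T.dz_sub (H0 H) i
    rwa [H0_pderiv, map_zero, zero_mul, sub_zero] at h1
  obtain ⟨Ψ, hΨ, hΨe⟩ := T.vH_poly hr0 hr (H0_PK hH) (by
    intro i
    obtain ⟨Q, hQ, hQe⟩ := T.dz_H0 hr hH flat i
    refine ⟨Q, hQ, ?_⟩
    have h1 := (Id S r).sub_mem hQe (h0 i)
    have h2 : T.dz (H0 H) i - Q.eval (T.q 0) - (T.dz (H0 H) i - T.vH (H0 H)) = T.vH (H0 H) - Q.eval (T.q 0) := by ring
    rwa [h2] at h1)
  refine ⟨H0 H, H1 H, Ψ, H0_PK hH, H1_PK hH, hΨ, H0_coeff H, T.rest_small hr hH flat, fun i => ?_⟩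
  have h1 := (Id S r).add_mem (h0 i) hΨe
  have h2 : T.dz (H0 H) i - T.vH (H0 H) + (T.vH (H0 H) - MvPolynomial.eval T.q Ψ) =
      T.dz (H0 H) i - MvPolynomial.eval T.q Ψ := by ring
  rwa [h2] at h1

end Vel

end

end Pool.Agent.Helper37.DJ
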