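import Pool.Agent.Helper37.DJ.K2a

/-! D1 = 1, K = 2: interfaces of `Vel.main`: flatness from transports on one curve; the flat coordinate along the
curves. -/

set_option autoImplicit false

namespace Pool.Agent.Helper37.DJ

open Finset Filter Topology Pool.Agent.Helper69.RK Pool.Agent.Helper31.EC Pool.Agent.Helper31.EC.Sp
open Pool.Agent.Helper31.EC.QS Pool.Agent.Helper5.DO Pool.Agent.Helper57.TA

noncomputable section

variable {S W : Sp}

theorem aeval_coeff_com (P P' : Pj W S) {σ : Type} (H : MvPolynomial σ (QS S)) (f : σ → Polynomial (QS S))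
    (hH : ∀ m, P.qs (H.coeff m) = P'.qs (H.coeff m)) (hf : ∀ j n, P.qs ((f j).coeff n) = P'.qs ((f j).coeff n)) (n : ℕ) :
    P.qs ((MvPolynomial.aeval f H).coeff n) = P'.qs ((MvPolynomial.aeval f H).coeff n) := by
  have h1 : ∀ p : Pj W S, Polynomial.map p.qs (MvPolynomial.aeval f H) =
      MvPolynomial.aeval (fun j => Polynomial.map p.qs (f j)) (MvPolynomial.map p.qs H) := by
    intro p
    clear hH
    induction H using MvPolynomial.induction_on with
    | C a =>
      rw [MvPolynomial.aeval_C, MvPolynomial.map_C, MvPolynomial.aeval_C, Polynomial.algebraMap_eq, Polynomial.map_C,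
        Polynomial.algebraMap_eq]
    | add a b ha hb => rw [map_add, Polynomial.map_add, ha, hb, map_add, map_add]
    | mul_X a j ha =>
      rw [map_mul, Polynomial.map_mul, ha, MvPolynomial.aeval_X, map_mul, map_mul, MvPolynomial.map_X,
        MvPolynomial.aeval_X]
  have h2 : MvPolynomial.map P.qs H = MvPolynomial.map P'.qs H := by
    ext m
    rw [MvPolynomial.coeff_map, MvPolynomial.coeff_map, hH]
  have h3 : (fun j => Polynomial.map P.qs (f j)) = fun j => Polynomial.map P'.qs (f j) := by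
    funext j
    ext n
    rw [Polynomial.coeff_map, Polynomial.coeff_map, hf]
  rw [← Polynomial.coeff_map, h1 P, h2, h3, ← h1 P', Polynomial.coeff_map]

namespace Vel

variable {ι κ : Type} [Fintype κ] {r : ℝ} (T : Vel S ι κ r)

/-- `z - H(q, R)` along the curve of type `i` -/
def cv (H : MvPolynomial (Fin 2 ⊕ κ) (QS S)) (i : ι) : Polynomial (QS S) :=
  (T.cz i).p () - MvPolynomial.aeval (T.c i).p H

theorem cv_PU {H : MvPolynomial (Fin 2 ⊕ κ) (QS S)} (hH : H ∈ PK ⊥) (i : ι) : T.cv H i ∈ PU (T.ξ i) :=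
  (PU _).sub_mem ((T.cz i).kn ()) (PU_aeval (PK_mono bot_le hH) (T.c i).kn)

theorem cv_eval (H : MvPolynomial (Fin 2 ⊕ κ) (QS S)) (i : ι) :
    (T.cv H i).eval (T.q 0) = T.z - MvPolynomial.eval T.x H := by
  unfold cv
  have h1 : (fun j => ((T.c i).p j).eval (T.q 0)) = T.x := funext (T.c i).pt
  rw [Polynomial.eval_sub, eval_aeval, (T.cz i).pt (), h1]

theorem cv_deriv (H : MvPolynomial (Fin 2 ⊕ κ) (QS S)) (i : ι) :
    (Polynomial.derivative (T.cv H i)).eval (T.q 0) = T.dz H i := by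
  unfold cv dz
  have h1 : (fun j => ((T.c i).p j).eval (T.q 0)) = T.x := funext (T.c i).pt
  rw [Polynomial.derivative_sub, chain, Polynomial.eval_sub, Polynomial.eval_finsetSum]
  congr 1
  apply Finset.sum_congr rfl
  intro j _
  rw [Polynomial.eval_mul, eval_aeval, h1]
  rfl

/-- FLATNESS FROM TRANSPORTS: two points of one curve of type `i` (all coefficients literally common) -/
theorem flat_of_pair (hr0 : 0 ≤ r) (hr : r ≤ 1) {H : MvPolynomial (Fin 2 ⊕ κ) (QS S)} (hH : H ∈ PK ⊥) (i : ι)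
    (P P' : Pj W S) (hc : ∀ j n, P.qs (((T.c i).p j).coeff n) = P'.qs (((T.c i).p j).coeff n))
    (hz : ∀ n, P.qs (((T.cz i).p ()).coeff n) = P'.qs (((T.cz i).p ()).coeff n))
    (hHc : ∀ m, P.qs (H.coeff m) = P'.qs (H.coeff m)) (g : MvPolynomial (Fin 2) (QS W))
    (hg : g ∈ PK (P.map (T.ln i)))
    (ht' : h (dg (P'.qs (T.q 0)) 1) (P.map (T.ξ i) ⊔ dg (P.qs (T.q 0)) 1) = 1)
    (he : P'.qs (T.z - MvPolynomial.eval T.x H) - P.qs (T.z - MvPolynomial.eval T.x H) -
      MvPolynomial.eval ![P.qs (T.q 0), P'.qs (T.q 0)] g ∈ Id W r) :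
    ∃ Q : Polynomial (QS S), Q ∈ PU (T.ln i) ∧ T.dz H i - Q.eval (T.q 0) ∈ Id S r := by
  have hb : T.ln i ≤ T.ξ i := T.bξ i
  have htb : h (dg (T.q 0) 1) (T.ln i) = 1 :=
    le_antisymm (h_dg_le_one _ _) ((T.tr i).symm.le.trans (h_anti hb))
  obtain ⟨Q, hQ, hQe⟩ := wpol_of_pair P P' hb (T.cv H i) (T.cv_PU hH i) (by
    intro n
    unfold cv
    rw [Polynomial.coeff_sub, map_sub, map_sub, hz, aeval_coeff_com P P' H _ hHc hc]) (T.q 0) g hg ht' htb hr0 hr
    (by rw [T.cv_eval]; exact he)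
  refine ⟨Q, hQ, ?_⟩
  rw [T.cv_deriv] at hQe
  exact hQe

/-- the new flat coordinate along the curves: its derivative is the polynomial `Ψ` on the base line -/
theorem along (hr : r ≤ 1) {G : MvPolynomial (Fin 2 ⊕ κ) (QS S)} (hG : G ∈ PK ⊥) {Ψ : MvPolynomial (Fin 2) (QS S)}
    (hΨ : Ψ ∈ PK ⊥) (i : ι) (he : T.dz G i - MvPolynomial.eval T.q Ψ ∈ Id S r) (n : ℕ) :
    (Polynomial.derivative (T.cv G i) - MvPolynomial.aeval (T.lp i) Ψ).coeff n ∈ Id S r := by
  have h1 : Polynomial.derivative (T.cv G i) - MvPolynomial.aeval (T.lp i) Ψ ∈ PU (T.ξ i) := by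
    apply (PU _).sub_mem (PU_derivative (T.cv_PU hG i))
    exact PU_aeval (PK_mono bot_le hΨ) fun j => PU_mono (T.bξ i) (T.lp_PU i j)
  apply poly_Id h1 (T.tr i) hr
  rw [Polynomial.eval_sub, T.cv_deriv, eval_aeval, T.lp_eval]
  exact he

end Vel

end

end Pool.Agent.Helper37.DJ
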