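import Pool.Agent.Helper37.DJ.Wp
import Pool.Agent.Helper21.DO.Pl

/-! D1 = 1: polynomials in base and vertical variables. -/

set_option autoImplicit false

namespace Pool.Agent.Helper37.DJ

open Finset Filter Topology Pool.Agent.Helper69.RK Pool.Agent.Helper31.EC Pool.Agent.Helper31.EC.Sp
open Pool.Agent.Helper31.EC.QS Pool.Agent.Helper5.DO Pool.Agent.Helper57.TA

noncomputable section

section alg

variable {A σ β κ : Type*} [CommRing A]

open Classical in
/-- the part of a polynomial with monomials in `p` -/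
def flt (p : (σ →₀ ℕ) → Prop) (P : MvPolynomial σ A) : MvPolynomial σ A :=
  ∑ m ∈ P.support, MvPolynomial.monomial m (if p m then P.coeff m else 0)

open Classical in
theorem coeff_flt (p : (σ →₀ ℕ) → Prop) (P : MvPolynomial σ A) (m : σ →₀ ℕ) :
    (flt p P).coeff m = if p m then P.coeff m else 0 := by
  unfold flt
  rw [MvPolynomial.coeff_sum]
  simp only [MvPolynomial.coeff_monomial]
  rw [Finset.sum_ite_eq' P.support m (fun m => if p m then P.coeff m else 0)]
  split_ifs with h1 h2 h2
  · rfl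
  · rfl
  · exact (MvPolynomial.notMem_support_iff.mp h1).symm
  · rfl

/-- base and vertical part of a monomial -/
def bp (M : β ⊕ κ →₀ ℕ) : β →₀ ℕ := (Finsupp.sumFinsuppEquivProdFinsupp M).1

/-- vertical part -/
def vp (M : β ⊕ κ →₀ ℕ) : κ →₀ ℕ := (Finsupp.sumFinsuppEquivProdFinsupp M).2

theorem bp_apply (M : β ⊕ κ →₀ ℕ) (b : β) : bp M b = M (Sum.inl b) := Finsupp.fst_sumFinsuppEquivProdFinsupp M b

theorem vp_apply (M : β ⊕ κ →₀ ℕ) (k : κ) : vp M k = M (Sum.inr k) := Finsupp.snd_sumFinsuppEquivProdFinsupp M k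

theorem bv_inj {M N : β ⊕ κ →₀ ℕ} (h1 : bp M = bp N) (h2 : vp M = vp N) : M = N := by
  ext j
  rcases j with j | j
  · rw [← bp_apply, h1, bp_apply]
  · rw [← vp_apply, h2, vp_apply]

theorem aeval_split [Fintype β] [Fintype κ] (q : β → A) (M : β ⊕ κ →₀ ℕ) (c : A) :
    MvPolynomial.aeval (Sum.elim (fun a => MvPolynomial.C (q a)) MvPolynomial.X) (MvPolynomial.monomial M c) =
      (MvPolynomial.monomial (vp M) (c * ∏ b, q b ^ M (Sum.inl b)) : MvPolynomial κ A) := by
  rw [MvPolynomial.aeval_monomial, MvPolynomial.algebraMap_eq, Finsupp.prod_fintype _ _ (fun _ => pow_zero _),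
    Fintype.prod_sum_type, MvPolynomial.monomial_eq, Finsupp.prod_fintype _ _ (fun _ => pow_zero _), map_mul,
    map_prod, mul_assoc]
  congr 1
  congr 1
  apply Finset.prod_congr rfl
  intro b _
  rw [map_pow]
  rfl

open Classical in
/-- coefficients of a polynomial with respect to the vertical variables -/
def cf (P : MvPolynomial (β ⊕ κ) A) (n : κ →₀ ℕ) : MvPolynomial β A :=
  ∑ M ∈ P.support, if vp M = n then MvPolynomial.monomial (bp M) (P.coeff M) else 0

open Classical in
theorem coeff_cf (P : MvPolynomial (β ⊕ κ) A) (M : β ⊕ κ →₀ ℕ) : (cf P (vp M)).coeff (bp M) = P.coeff M := by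
  unfold cf
  rw [MvPolynomial.coeff_sum]
  by_cases hM : M ∈ P.support
  · rw [Finset.sum_eq_single M]
    · rw [if_pos rfl, MvPolynomial.coeff_monomial, if_pos rfl]
    · intro N _ hN
      by_cases h1 : vp N = vp M
      · rw [if_pos h1, MvPolynomial.coeff_monomial, if_neg]
        intro h2
        exact hN (bv_inj h2 h1)
      · rw [if_neg h1, MvPolynomial.coeff_zero]
    · intro h1
      exact absurd hM h1
  · rw [MvPolynomial.notMem_support_iff.mp hM]
    apply Finset.sum_eq_zero
    intro N hN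
    by_cases h1 : vp N = vp M
    · rw [if_pos h1, MvPolynomial.coeff_monomial, if_neg]
      intro h2
      rw [bv_inj h2 h1] at hN
      exact hM hN
    · rw [if_neg h1, MvPolynomial.coeff_zero]

open Classical in
theorem eval_cf [Fintype β] [Fintype κ] (q : β → A) (P : MvPolynomial (β ⊕ κ) A) (n : κ →₀ ℕ) :
    (MvPolynomial.aeval (Sum.elim (fun a => MvPolynomial.C (q a)) MvPolynomial.X) P : MvPolynomial κ A).coeff n =
      MvPolynomial.eval q (cf P n) := by
  conv_lhs => rw [P.as_sum]
  rw [map_sum, MvPolynomial.coeff_sum]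
  unfold cf
  rw [map_sum]
  apply Finset.sum_congr rfl
  intro M _
  rw [aeval_split, MvPolynomial.coeff_monomial]
  split_ifs with h1
  · rw [MvPolynomial.eval_monomial, Finsupp.prod_fintype _ _ (fun _ => pow_zero _)]
    rfl
  · rw [map_zero]

end alg

variable {S W : Sp}

theorem flt_PK {σ : Type} {A : S.L} {P : MvPolynomial σ (QS S)} (hP : P ∈ PK A) (p : (σ →₀ ℕ) → Prop) :
    flt p P ∈ PK A := by
  classical
  intro m
  rw [coeff_flt]
  split_ifs
  · exact hP m
  · exact (Kn S 1 le_rfl A).zero_mem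

theorem cf_PK {β κ : Type} {A : S.L} {P : MvPolynomial (β ⊕ κ) (QS S)} (hP : P ∈ PK A) (n : κ →₀ ℕ) : cf P n ∈ PK A := by
  classical
  unfold cf
  apply (PK A).sum_mem
  intro M _
  split_ifs
  · exact monomial_mem _ (hP M)
  · exact (PK A).zero_mem

/-- full variables stay full over independent information -/
theorem Rl_ind {κ : Type} [Fintype κ] {x : κ → QS W} {y a : W.L} (hx : Rl x y) (hI : I a (vd x 1 ⊔ y) ⊥ = 0) :
    Rl x (y ⊔ a) := by
  unfold Rl at hx ⊢
  rw [sup_comm (vd x 1) y] at hI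
  have h1 := (I_decomp hI).2
  rw [sup_bot_eq] at h1
  rw [sup_comm y a, I_zero_iff_h'.mp h1, hx]

/-- a polynomial in base and vertical variables, with coefficients of rate zero, which is known to an information over
which the vertical variables are full, has small coefficients at all monomials with vertical variables -/
theorem small_of_known {β κ : Type} [Fintype β] [Fintype κ] (q : β → QS S) (R : κ → QS S) (hq : Rl q ⊥)
    {P : MvPolynomial (β ⊕ κ) (QS S)} (hP : P ∈ PK ⊥) {r : ℝ} (hr : r ≤ 1) (p : Pj W S) {L : W.L}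
    (hqL : p.map (vd q 1) ≤ L) (hRL : Rl (fun k => p.qs (R k)) L) {b : QS W} (hb : dg b 1 ≤ L)
    (he : p.qs (MvPolynomial.eval (Sum.elim q R) P) - b ∈ Id W r) (M : β ⊕ κ →₀ ℕ) (hM : vp M ≠ 0) :
    P.coeff M ∈ Id S r := by
  classical
  set N : MvPolynomial κ (QS S) :=
    MvPolynomial.aeval (Sum.elim (fun a => MvPolynomial.C (q a)) MvPolynomial.X) P with hN
  have hNe : MvPolynomial.eval R N = MvPolynomial.eval (Sum.elim q R) P := by
    rw [hN, eval_sbs]
    congr 1
    congr 1
    funext a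
    rcases a with a | a
    · exact MvPolynomial.eval_C _
    · exact MvPolynomial.eval_X _
  have hNk : N ∈ PK (vd q 1) := by
    apply sbs_PK (PK_mono bot_le hP)
    rintro (a | a)
    · exact C_mem (dg_le_vd q 1 a)
    · exact X_mem _ _
  have h1 : MvPolynomial.map p.qs N - MvPolynomial.C b ∈ PK L :=
    (PK L).sub_mem (PK_mono hqL (map_PK p hNk)) (C_mem hb)
  have h2 : MvPolynomial.eval (fun k => p.qs (R k)) (MvPolynomial.map p.qs N - MvPolynomial.C b) ∈ Id W r := by
    rw [map_sub, MvPolynomial.eval_C, ← qs_eval, hNe]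
    exact he
  have h3 := mv_small zero_lt_one le_rfl (Rl_iff_Rt.mp hRL) hr le_rfl (PKr_of_PK le_rfl h1) h2 (vp M)
  rw [MvPolynomial.coeff_sub, MvPolynomial.coeff_C, if_neg (Ne.symm hM), sub_zero, MvPolynomial.coeff_map,
    p.qs_mem_Id hr, hN, eval_cf] at h3
  have h4 := mv_small zero_lt_one le_rfl (Rl_iff_Rt.mp hq) hr le_rfl (PKr_of_PK le_rfl (cf_PK hP (vp M))) h3 (bp M)
  rwa [coeff_cf] at h4

end

end Pool.Agent.Helper37.DJ
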