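import Pool.Agent.Helper37.DJ.Small

/-! D1 = 1, K = 2, first half: after Theorem A the velocities of the flat coordinates are real polynomials of the base
point `(t, f)`. -/

set_option autoImplicit false

namespace Pool.Agent.Helper37.DJ

open Finset Filter Topology Pool.Agent.Helper69.RK Pool.Agent.Helper31.EC Pool.Agent.Helper31.EC.Sp
open Pool.Agent.Helper31.EC.QS Pool.Agent.Helper5.DO Pool.Agent.Helper57.TA

noncomputable section

variable {S : Sp}

/-- SPAN with independence, for one free velocity: for all finitely many functions known to `O` there are two copies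
with these functions in common, and types, with different velocities which are independent of the functions -/
def SpI {ι : Type} (a : ι → QS S) (O : S.L) : Prop :=
  ∀ (n : ℕ) (F : Fin n → QS S), vd F 1 ≤ O → ∃ (W : Sp) (p p' : Pj W S) (i i' : ι),
    (∀ j, p.qs (F j) = p'.qs (F j)) ∧ IsUnit (p.qs (a i) - p'.qs (a i')) ∧
      I (dg (p.qs (a i)) 1 ⊔ dg (p'.qs (a i')) 1) (p.map (vd F 1)) ⊥ = 0

theorem SpI.fam {ι : Type} {a : ι → QS S} {O : S.L} (h : SpI a O) {κ : Type} [Fintype κ] (F : κ → QS S)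
    (hF : vd F 1 ≤ O) : ∃ (W : Sp) (p p' : Pj W S) (i i' : ι),
    (∀ j, p.qs (F j) = p'.qs (F j)) ∧ IsUnit (p.qs (a i) - p'.qs (a i')) ∧
      I (dg (p.qs (a i)) 1 ⊔ dg (p'.qs (a i')) 1) (p.map (vd F 1)) ⊥ = 0 := by
  have e : vd (fun n => F ((Fintype.equivFin κ).symm n)) 1 = vd F 1 :=
    vd_equiv (Fintype.equivFin κ).symm F 1
  obtain ⟨W, p, p', i, i', h1, h2, h3⟩ := h (Fintype.card κ) (fun n => F ((Fintype.equivFin κ).symm n)) (by
    rw [e]
    exact hF)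
  refine ⟨W, p, p', i, i', fun j => ?_, h2, ?_⟩
  · have := h1 (Fintype.equivFin κ j)
    simpa using this
  · rw [e] at h3
    exact h3

/-- the data: base point `q = (t, f)`, flat vertical coordinates `R` with velocities `C` known to the base point, one
more vertical coordinate `z`, whose velocity `v` is known to the point and common to all types -/
structure Vel (S : Sp) (ι κ : Type) [Fintype κ] (r : ℝ) where
  q : Fin 2 → QS S
  R : κ → QS S
  z : QS S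
  O : S.L
  ξ : ι → S.L
  a : ι → QS S
  c : ∀ i, Cur (Sum.elim q R) (q 0) (ξ i)
  cz : ∀ i, Cur (fun _ : Unit => z) (q 0) (ξ i)
  C : κ → QS S
  v : QS S
  c0 : ∀ i, (c i).v (Sum.inl 0) = 1
  c1 : ∀ i, (c i).v (Sum.inl 1) = a i
  cR : ∀ i k, (c i).v (Sum.inr k) - C k ∈ Id S r
  vz : ∀ i, (cz i).v () - v ∈ Id S r
  Cq : ∀ k, dg (C k) 1 ≤ vd q 1
  vO : dg v 1 ≤ O
  qO : vd q 1 ≤ O
  RO : vd R 1 ≤ O
  qr : Rl q ⊥
  Rr : Rl R (vd q 1)
  tr : ∀ i, h (dg (q 0) 1) (ξ i) = 1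
  bξ : ∀ i, dg (a i) 1 ⊔ dg (q 1 - q 0 * a i) 1 ≤ ξ i
  sp : SpI a O

namespace Vel

variable {ι κ : Type} [Fintype κ] {r : ℝ} (T : Vel S ι κ r)

/-- foot of the base line -/
def ft (i : ι) : QS S := T.q 1 - T.q 0 * T.a i

/-- information of the base line -/
def ln (i : ι) : S.L := dg (T.a i) 1 ⊔ dg (T.ft i) 1

/-- the point -/
def x : Fin 2 ⊕ κ → QS S := Sum.elim T.q T.R

/-- velocity of `z - H(q, R)` along the type `i` -/
def dz (H : MvPolynomial (Fin 2 ⊕ κ) (QS S)) (i : ι) : QS S :=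
  (T.cz i).v () - ∑ j, MvPolynomial.eval T.x (MvPolynomial.pderiv j H) * (T.c i).v j

/-- velocity at rest -/
def vH (H : MvPolynomial (Fin 2 ⊕ κ) (QS S)) : QS S :=
  T.v - MvPolynomial.eval T.x (MvPolynomial.pderiv (Sum.inl 0) H) -
    ∑ k, MvPolynomial.eval T.x (MvPolynomial.pderiv (Sum.inr k) H) * T.C k

theorem dz_sub (H : MvPolynomial (Fin 2 ⊕ κ) (QS S)) (i : ι) :
    T.dz H i - (T.vH H - MvPolynomial.eval T.x (MvPolynomial.pderiv (Sum.inl 1) H) * T.a i) ∈ Id S r := by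
  have h1 : T.dz H i - (T.vH H - MvPolynomial.eval T.x (MvPolynomial.pderiv (Sum.inl 1) H) * T.a i) =
      ((T.cz i).v () - T.v) - ∑ k, MvPolynomial.eval T.x (MvPolynomial.pderiv (Sum.inr k) H) *
        ((T.c i).v (Sum.inr k) - T.C k) := by
    unfold dz vH
    rw [Fintype.sum_sum_type, Fin.sum_univ_two, T.c0, T.c1]
    simp only [mul_sub, Finset.sum_sub_distrib]
    ring
  rw [h1]
  apply (Id S r).sub_mem (T.vz i)
  exact (Id S r).sum_mem fun k _ => (Id S r).mul_mem_left _ (T.cR i k)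

theorem x_O (j : Fin 2 ⊕ κ) : dg (T.x j) 1 ≤ T.O := by
  rcases j with j | j
  · exact (dg_le_vd T.q 1 j).trans T.qO
  · exact (dg_le_vd T.R 1 j).trans T.RO

theorem eval_O {H : MvPolynomial (Fin 2 ⊕ κ) (QS S)} (hH : H ∈ PK ⊥) : dg (MvPolynomial.eval T.x H) 1 ≤ T.O :=
  eval_mem hH _ bot_le T.x_O

theorem vH_O {H : MvPolynomial (Fin 2 ⊕ κ) (QS S)} (hH : H ∈ PK ⊥) : dg (T.vH H) 1 ≤ T.O := by
  apply (Kn S 1 le_rfl T.O).sub_mem
  · exact (Kn S 1 le_rfl T.O).sub_mem T.vO (T.eval_O (pd_PK hH _))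
  · apply (Kn S 1 le_rfl T.O).sum_mem
    intro k _
    exact (Kn S 1 le_rfl T.O).mul_mem (T.eval_O (pd_PK hH _)) ((T.Cq k).trans T.qO)

/-- the line -/
def lp (i : ι) : Fin 2 → Polynomial (QS S) :=
  ![Polynomial.X, Polynomial.C (T.ft i) + Polynomial.X * Polynomial.C (T.a i)]

theorem lp_PU (i : ι) (j : Fin 2) : T.lp i j ∈ PU (T.ln i) := by
  fin_cases j
  · exact PU_X _
  · exact (PU _).add_mem (PU_C le_sup_right) ((PU _).mul_mem (PU_X _) (PU_C le_sup_left))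

theorem lp_eval (i : ι) : (fun j => (T.lp i j).eval (T.q 0)) = T.q := by
  funext j
  fin_cases j
  · simp [lp]
  · simp [lp, ft]
    ring

theorem ln_le (i : ι) : T.ln i ≤ vd T.q 1 ⊔ dg (T.a i) 1 := by
  apply sup_le le_sup_right
  apply (Kn S 1 le_rfl (vd T.q 1 ⊔ dg (T.a i) 1)).sub_mem
  · exact (dg_le_vd T.q 1 1).trans le_sup_left
  · exact (Kn S 1 le_rfl (vd T.q 1 ⊔ dg (T.a i) 1)).mul_mem ((dg_le_vd T.q 1 0).trans le_sup_left)
      (show dg (T.a i) 1 ≤ vd T.q 1 ⊔ dg (T.a i) 1 from le_sup_right)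

/-- STEP 1: mixed coefficients of `H` are small -/
theorem mixed (hr : r ≤ 1) {H : MvPolynomial (Fin 2 ⊕ κ) (QS S)} (hH : H ∈ PK ⊥)
    (flat : ∀ i, ∃ Q : Polynomial (QS S), Q ∈ PU (T.ln i) ∧ T.dz H i - Q.eval (T.q 0) ∈ Id S r)
    (m : Fin 2 ⊕ κ →₀ ℕ) (h1 : m (Sum.inl 1) ≠ 0) (h2 : vp m ≠ 0) : H.coeff m ∈ Id S r := by
  classical
  set B : QS S := MvPolynomial.eval T.x (MvPolynomial.pderiv (Sum.inl 1) H) with hB
  set F : (Fin 2 ⊕ κ) ⊕ Fin 2 → QS S := Sum.elim T.x ![T.vH H, B] with hF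
  have hFO : vd F 1 ≤ T.O := by
    rw [vd_le]
    rintro (j | j)
    · exact T.x_O j
    · fin_cases j
      · exact T.vH_O hH
      · exact T.eval_O (pd_PK hH _)
  obtain ⟨W, p, p', i, i', hcom, hu, hI⟩ := T.sp.fam F hFO
  obtain ⟨Q, hQ, hQe⟩ := flat i
  obtain ⟨Q', hQ', hQe'⟩ := flat i'
  have e1 : p.qs (T.vH H) = p'.qs (T.vH H) := hcom (Sum.inr 0)
  have e2 : p.qs B = p'.qs B := hcom (Sum.inr 1)
  have e3 : ∀ j, p.qs (T.q j) = p'.qs (T.q j) := fun j => hcom (Sum.inl (Sum.inl j))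
  have e4 : p.map (vd T.q 1) = p'.map (vd T.q 1) := by
    rw [← vd_qs, ← vd_qs]
    congr 1
    funext j
    exact e3 j
  set L : W.L := p.map (vd T.q 1) ⊔ (dg (p.qs (T.a i)) 1 ⊔ dg (p'.qs (T.a i')) 1) with hL
  -- the two relations
  have r1 : T.vH H - B * T.a i - Q.eval (T.q 0) ∈ Id S r := by
    have h3 := (Id S r).sub_mem hQe (T.dz_sub H i)
    have h4 : T.dz H i - Q.eval (T.q 0) - (T.dz H i - (T.vH H - B * T.a i)) =
        T.vH H - B * T.a i - Q.eval (T.q 0) := by ring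
    rwa [h4] at h3
  have r2 : T.vH H - B * T.a i' - Q'.eval (T.q 0) ∈ Id S r := by
    have h3 := (Id S r).sub_mem hQe' (T.dz_sub H i')
    have h4 : T.dz H i' - Q'.eval (T.q 0) - (T.dz H i' - (T.vH H - B * T.a i')) =
        T.vH H - B * T.a i' - Q'.eval (T.q 0) := by ring
    rwa [h4] at h3
  have r3 : p.qs B * (p.qs (T.a i) - p'.qs (T.a i')) -
      (p'.qs (Q'.eval (T.q 0)) - p.qs (Q.eval (T.q 0))) ∈ Id W r := by
    have h3 := (Id W r).sub_mem ((p'.qs_mem_Id hr).mpr r2) ((p.qs_mem_Id hr).mpr r1)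
    rw [map_sub, map_sub, map_sub, map_sub, map_mul, map_mul, ← e1, ← e2] at h3
    have h4 : p.qs (T.vH H) - p.qs B * p'.qs (T.a i') - p'.qs (Q'.eval (T.q 0)) -
        (p.qs (T.vH H) - p.qs B * p.qs (T.a i) - p.qs (Q.eval (T.q 0))) =
        p.qs B * (p.qs (T.a i) - p'.qs (T.a i')) - (p'.qs (Q'.eval (T.q 0)) - p.qs (Q.eval (T.q 0))) := by ring
    rwa [h4] at h3
  have k1 : dg (p.qs (Q.eval (T.q 0))) 1 ≤ L := by
    rw [p.qs_dg]
    refine (p.map_mono (PU_eval hQ (T.ln_le i) ((dg_le_vd T.q 1 0).trans le_sup_left))).trans ?_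
    rw [p.map_sup, ← p.qs_dg]
    exact sup_le_sup_left le_sup_left _
  have k2 : dg (p'.qs (Q'.eval (T.q 0))) 1 ≤ L := by
    rw [p'.qs_dg]
    refine (p'.map_mono (PU_eval hQ' (T.ln_le i') ((dg_le_vd T.q 1 0).trans le_sup_left))).trans ?_
    rw [p'.map_sup, ← p'.qs_dg, ← e4]
    exact sup_le_sup_left le_sup_right _
  have ka : dg (p.qs (T.a i)) 1 ≤ L := le_sup_left.trans le_sup_right
  have ka' : dg (p'.qs (T.a i')) 1 ≤ L := le_sup_right.trans le_sup_right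
  obtain ⟨u, hu⟩ := hu
  have ku : dg ((u⁻¹ : (QS W)ˣ) : QS W) 1 ≤ L := by
    refine (dg_inv_le (f := (u : QS W)) (by rw [Units.inv_mul]) le_rfl).trans ?_
    rw [hu]
    exact (Kn W 1 le_rfl L).sub_mem ka ka'
  set b : QS W := ((u⁻¹ : (QS W)ˣ) : QS W) * (p'.qs (Q'.eval (T.q 0)) - p.qs (Q.eval (T.q 0))) with hb
  have kb : dg b 1 ≤ L := (Kn W 1 le_rfl L).mul_mem ku ((Kn W 1 le_rfl L).sub_mem k2 k1)
  have r4 : p.qs B - b ∈ Id W r := by
    have h3 := (Id W r).mul_mem_left ((u⁻¹ : (QS W)ˣ) : QS W) r3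
    rw [← hu, mul_sub] at h3
    have h4 : ((u⁻¹ : (QS W)ˣ) : QS W) * (p.qs B * (u : QS W)) = p.qs B := by
      rw [mul_comm (p.qs B), ← mul_assoc, Units.inv_mul, one_mul]
    rwa [h4] at h3
  -- `R` is full over `L`
  have hRL : Rl (fun k => p.qs (T.R k)) L := by
    rw [hL]
    apply Rl_ind
    · exact T.Rr.pull p
    · apply I_zero_mono hI (le_sup_left)
      rw [sup_bot_eq, vd_qs]
      rw [← p.map_sup]
      apply p.map_mono
      apply sup_le
      · rw [vd_le]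
        intro k
        exact dg_le_vd F 1 (Sum.inl (Sum.inr k))
      · rw [vd_le]
        intro k
        exact dg_le_vd F 1 (Sum.inl (Sum.inl k))
  -- the derivative
  set m1 : Fin 2 ⊕ κ →₀ ℕ := m - Finsupp.single (Sum.inl 1) 1 with hm1
  have hm : m1 + Finsupp.single (Sum.inl 1) 1 = m := by
    apply tsub_add_cancel_of_le
    rw [Finsupp.single_le_iff]
    exact Nat.one_le_iff_ne_zero.mpr h1
  have h3 : vp m1 ≠ 0 := by
    intro h4
    apply h2
    ext k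
    have h5 := DFunLike.congr_fun h4 k
    rw [vp_apply] at h5 ⊢
    rw [← hm, Finsupp.add_apply, h5]
    simp
  have h4 := small_of_known T.q T.R T.qr (pd_PK hH (Sum.inl 1)) hr p (L := L) le_sup_left hRL kb r4 m1 h3
  rw [MvPolynomial.coeff_pderiv, hm, mul_comm] at h4
  exact mem_Id_of_unit_mul (isUnit_succ _) h4

end Vel

end

end Pool.Agent.Helper37.DJ
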