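import Pool.Agent.Helper5.DO.Pro
import Pool.Agent.Helper57.TA.Alg
import Pool.Agent.Helper57.TA.Dsc

/-! D1 = 1, velocities: a function whose transports over the base lines are polynomials with coefficients known to the
base line has a velocity which is a polynomial of the time with coefficients known to the base line. -/

set_option autoImplicit false

namespace Pool.Agent.Helper37.DJ

open Finset Filter Topology Pool.Agent.Helper69.RK Pool.Agent.Helper31.EC Pool.Agent.Helper31.EC.Sp
open Pool.Agent.Helper31.EC.QS Pool.Agent.Helper5.DO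

noncomputable section

variable {S W : Sp}

theorem PU_map (p : Pj W S) {A : S.L} {Y : Polynomial (QS S)} (hY : Y ∈ PU A) : Y.map p.qs ∈ PU (p.map A) := by
  intro m
  rw [Polynomial.coeff_map, p.qs_dg]
  exact p.map_mono (hY m)

theorem PU_X (A : S.L) : (Polynomial.X : Polynomial (QS S)) ∈ PU A := by
  intro n
  rw [Polynomial.coeff_X]
  split_ifs
  · exact (Kn S 1 le_rfl A).one_mem
  · exact (Kn S 1 le_rfl A).zero_mem

theorem PU_eval {A B : S.L} {Y : Polynomial (QS S)} (hY : Y ∈ PU A) (hAB : A ≤ B) {t : QS S} (ht : dg t 1 ≤ B) :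
    dg (Y.eval t) 1 ≤ B := by
  rw [Polynomial.eval_eq_sum_range]
  apply (Kn S 1 le_rfl B).sum_mem
  intro m _
  exact (Kn S 1 le_rfl B).mul_mem ((hY m).trans hAB) ((Kn S 1 le_rfl B).pow_mem ht _)

theorem eval_poly_mem {A : Type*} [CommRing A] (J : Ideal A) {Y : Polynomial A} (h : ∀ n, Y.coeff n ∈ J) (t : A) :
    Y.eval t ∈ J := by
  rw [Polynomial.eval_eq_sum_range]
  exact J.sum_mem fun m _ => J.mul_mem_right _ (h m)

/-- VELOCITIES OF FLAT FUNCTIONS. `P`, `P'`: two points of one curve (the coefficients of `Y` are literally common),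
the difference of the values is a polynomial of the two times with coefficients known to the base line. -/
theorem wpol_of_pair (P P' : Pj W S) {ξ b : S.L} (hb : b ≤ ξ) (Y : Polynomial (QS S)) (hY : Y ∈ PU ξ)
    (hcom : ∀ n, P.qs (Y.coeff n) = P'.qs (Y.coeff n)) (t : QS S) (g : MvPolynomial (Fin 2) (QS W))
    (hg : g ∈ PK (P.map b)) (ht' : h (dg (P'.qs t) 1) (P.map ξ ⊔ dg (P.qs t) 1) = 1) (htb : h (dg t 1) b = 1)
    {r : ℝ} (hr0 : 0 ≤ r) (hr : r ≤ 1)
    (he : P'.qs (Y.eval t) - P.qs (Y.eval t) - MvPolynomial.eval ![P.qs t, P'.qs t] g ∈ Id W r) :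
    ∃ Q : Polynomial (QS S), Q ∈ PU b ∧ (Polynomial.derivative Y).eval t - Q.eval t ∈ Id S r := by
  -- the polynomial in the second time
  set A : W.L := P.map ξ ⊔ dg (P.qs t) 1 with hA
  set φ : Fin 2 → Polynomial (QS W) := ![Polynomial.C (P.qs t), Polynomial.X] with hφ
  have hφA : ∀ j, φ j ∈ PU A := by
    intro j
    fin_cases j
    · exact PU_C le_sup_right
    · exact PU_X _
  set Z : Polynomial (QS W) := Y.map P.qs - Polynomial.C (P.qs (Y.eval t)) - MvPolynomial.aeval φ g with hZ
  have hYt : dg (Y.eval t) 1 ≤ ξ ⊔ dg t 1 := PU_eval hY le_sup_left le_sup_right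
  have hZA : Z ∈ PU A := by
    apply (PU A).sub_mem
    · apply (PU A).sub_mem
      · exact PU_mono le_sup_left (PU_map P hY)
      · apply PU_C
        rw [P.qs_dg]
        refine (P.map_mono hYt).trans ?_
        rw [P.map_sup, ← P.qs_dg]
    · exact PU_aeval (PK_mono ((P.map_mono hb).trans le_sup_left) hg) hφA
  have hmap : Y.map P'.qs = Y.map P.qs := by
    ext n
    rw [Polynomial.coeff_map, Polynomial.coeff_map, hcom n]
  have hZe : Z.eval (P'.qs t) ∈ Id W r := by
    rw [hZ, Polynomial.eval_sub, Polynomial.eval_sub, Polynomial.eval_C, eval_aeval]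
    have e1 : (Y.map P.qs).eval (P'.qs t) = P'.qs (Y.eval t) := by
      rw [← hmap, Polynomial.eval_map_apply]
    have e2 : (fun j => (φ j).eval (P'.qs t)) = ![P.qs t, P'.qs t] := by
      funext j
      fin_cases j
      · simp [hφ]
      · simp [hφ]
    rw [e1, e2]
    exact he
  have hZc := poly_Id hZA ht' hr hZe
  have hD : (Polynomial.derivative Z).eval (P.qs t) ∈ Id W r := by
    apply eval_poly_mem
    intro n
    rw [Polynomial.coeff_derivative]
    exact (Id W r).mul_mem_right _ (hZc (n + 1))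
  have hD2 : (Polynomial.derivative Z).eval (P.qs t) = P.qs ((Polynomial.derivative Y).eval t) -
      MvPolynomial.eval (fun _ => P.qs t) (MvPolynomial.pderiv 1 g) := by
    rw [hZ, Polynomial.derivative_sub, Polynomial.derivative_sub, Polynomial.derivative_C, chain, sub_zero,
      Polynomial.eval_sub, Polynomial.derivative_map, Polynomial.eval_map_apply, Fin.sum_univ_two, Polynomial.eval_add,
      Polynomial.eval_mul, Polynomial.eval_mul, eval_aeval, eval_aeval]
    have e2 : (fun j => (φ j).eval (P.qs t)) = fun _ => P.qs t := by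
      funext j
      fin_cases j
      · simp [hφ]
      · simp [hφ]
    have e3 : (Polynomial.derivative (φ 0)).eval (P.qs t) = 0 := by
      simp [hφ]
    have e4 : (Polynomial.derivative (φ 1)).eval (P.qs t) = 1 := by
      simp [hφ]
    rw [e2, e3, e4, mul_zero, zero_add, mul_one]
  rw [hD2] at hD
  -- one variable
  set G : MvPolynomial Unit (QS W) := MvPolynomial.aeval (fun _ : Fin 2 => MvPolynomial.X ()) (MvPolynomial.pderiv 1 g)
    with hG
  have hGk : G ∈ PK (P.map b) :=
    Pool.Agent.Helper57.TA.sbs_PK (pd_PK hg 1) fun _ => X_mem _ _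
  have hGe : MvPolynomial.eval (fun _ : Unit => P.qs t) G =
      MvPolynomial.eval (fun _ => P.qs t) (MvPolynomial.pderiv 1 g) := by
    rw [hG, Pool.Agent.Helper57.TA.eval_sbs]
    congr 1
    congr 1
    funext _
    exact MvPolynomial.eval_X _
  have hRt : Pool.Agent.Helper57.TA.Rt 1 (fun _ : Unit => t) b := by
    have e1 : vd (fun _ : Unit => t) 1 = dg t 1 := by
      show Finset.univ.sup (fun _ : Unit => dg t 1) = _
      rw [Finset.univ_unique, Finset.sup_singleton]
    unfold Pool.Agent.Helper57.TA.Rt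
    rw [e1, Fintype.card_unit, Nat.cast_one, mul_one, htb]
  obtain ⟨Q, hQ, -, hQe⟩ := Pool.Agent.Helper57.TA.descend_coeff P ((Polynomial.derivative Y).eval t)
    (x := fun _ : Unit => t) zero_lt_one le_rfl hRt hr0 hr le_rfl
    (Pool.Agent.Helper57.TA.PKr_of_PK le_rfl hGk) (by rw [hGe]; exact hD)
  refine ⟨MvPolynomial.aeval (fun _ : Unit => Polynomial.X) Q, PU_aeval hQ fun _ => PU_X _, ?_⟩
  rw [eval_aeval]
  simp only [Polynomial.eval_X]
  exact hQe

end

end Pool.Agent.Helper37.DJ
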